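import Mathlib
import Pool.Agent.Helper38.OpIdeal
import Pool.Agent.Helper38.DavieMain

set_option autoImplicit false

namespace Pool.Agent.Results.MP_2b2a50_an.BapSpace

open Filter Topology Pool.Agent.Helper38.OpIdeal

universe u

open Pool.Agent.Helper38.Davie in
/-- **Answer to Q1 (negative).** The approximable operators form a Banach operator ideal, and for
every `lam ≥ 1` there is a Banach space `X` with the bounded approximation property which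
satisfies `(P_1)`, hence `(P_lam)`, for this ideal, but does not have the `lam`-BAP for it. -/
theorem result (𝕜 : Type) [RCLike 𝕜] (lam : ℝ) (hlam : 1 ≤ lam) :
    (approx.{u} 𝕜).IsBanachIdeal ∧
    ∃ X : Ban.{u} 𝕜, HasBAP X ∧ CondP (approx.{u} 𝕜) 1 X ∧ CondP (approx.{u} 𝕜) lam X ∧
        ¬ BAPFor (approx.{u} 𝕜) lam X := by
  refine ⟨approx_isBanachIdeal 𝕜, ?_⟩
  obtain ⟨t, ht⟩ : ∃ t : ℝ, t = (60 * (lam + 1))⁻¹ := ⟨_, rfl⟩
  have ht0 : 0 < t := by rw [ht]; positivity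
  have ht1 : t ≤ 1 := by
    rw [ht]
    apply inv_le_one_of_one_le₀
    linarith
  refine ⟨⟨Xt.{u} 𝕜 t⟩, ⟨t⁻¹, fun K hK ε hε => ?_⟩,
    condP_of_dense _ (approx_isBanachIdeal 𝕜) (approx_dense 𝕜) 1 le_rfl _,
    condP_of_dense _ (approx_isBanachIdeal 𝕜) (approx_dense 𝕜) lam hlam _, ?_⟩
  · obtain ⟨S, hS1, hS2, hS3⟩ := Xt_BAP 𝕜 t ht0 ht1 K hK ε hε
    exact ⟨S, finRank_of_range (X := ⟨Xt.{u} 𝕜 t⟩) (Y := ⟨Xt.{u} 𝕜 t⟩) S hS1, hS2, hS3⟩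
  intro hB
  obtain ⟨ι, _, hdir, hne, S, hfin, hunif, hlim⟩ := hB ⟨V.{u} 𝕜⟩ (Tt.{u} 𝕜 t) (by
    intro ε hε
    obtain ⟨F, hF1, hF2⟩ := Tt_approximable.{u} 𝕜 t ε hε
    exact ⟨F, finRank_of_range (X := ⟨Xt.{u} 𝕜 t⟩) (Y := ⟨V.{u} 𝕜⟩) F hF1, hF2⟩)
  obtain ⟨S', hS'⟩ : ∃ S' : ι → Xt.{u} 𝕜 t →L[𝕜] Xt.{u} 𝕜 t, S' = S := ⟨S, rfl⟩
  have h1 : ∀ᶠ i in atTop, ‖(Tt.{u} 𝕜 t).comp (S' i)‖ < lam + 1 := by
    have h2 : limsup (fun i => ((‖(Tt.{u} 𝕜 t).comp (S' i)‖ : ℝ) : EReal)) atTop <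
        ((lam + 1 : ℝ) : EReal) := by
      rw [hS']
      refine lt_of_le_of_lt hlim ?_
      show ((lam * ‖Tt.{u} 𝕜 t‖ : ℝ) : EReal) < _
      rw [EReal.coe_lt_coe_iff]
      have h3 := opnorm_Tt_le.{u} 𝕜 t
      nlinarith
    have h4 := eventually_lt_of_limsup_lt h2
    filter_upwards [h4] with i hi
    rwa [EReal.coe_lt_coe_iff] at hi
  have h5 := hunif (Kt.{u} 𝕜 t) (isCompact_Kt.{u} 𝕜 t ht0.le ht1)
  rw [Metric.tendstoUniformlyOn_iff] at h5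
  have h6 := h5 (1 / 12) (by norm_num)
  obtain ⟨i, hi1, hi2⟩ := (h1.and h6).exists
  have h7 := main_est 𝕜 t ht0 ht1 (S' i) (by
      rw [hS']
      exact (hfin i).range) (fun x hx => by
    have h8 := hi2 x hx
    rw [id, dist_comm, dist_eq_norm] at h8
    rw [hS']
    exact h8.le)
  have h9 : t * ‖(Tt.{u} 𝕜 t).comp (S' i)‖ < t * (lam + 1) := mul_lt_mul_of_pos_left hi1 ht0
  have h10 : t * (lam + 1) = 1 / 60 := by
    rw [ht]
    have : lam + 1 ≠ 0 := by linarith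
    field_simp
  linarith

end Pool.Agent.Results.MP_2b2a50_an.BapSpace
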