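import Mathlib
import Pool.Agent.Helper38.OpIdeal
import Pool.Agent.Helper38.DavieNoAP

set_option autoImplicit false

namespace Pool.Agent.Results.MP_2b2a50_an.DenseIdeals

open Filter Topology Pool.Agent.Helper38.OpIdeal

universe u

open Pool.Agent.Helper38.Davie in
/-- **Negative answer to Q1 for every operator ideal with dense finite rank operators.** There is
one Banach space `X` which satisfies `(P_lam)`, `lam ≥ 1`, for every Banach operator ideal `𝒜` in
which the finite rank operators are dense for the ideal norm (approximable operators, nuclear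
operators, ...), while `X` has the `lam`-BAP for `𝒜` for no Banach operator ideal `𝒜` and no
`lam`. The approximable operators are such an ideal. -/
theorem result (𝕜 : Type) [RCLike 𝕜] :
    (approx.{u} 𝕜).IsBanachIdeal ∧ FinRankDense (approx.{u} 𝕜) ∧
    ∃ X : Ban.{u} 𝕜, ∀ A : OpClass.{u} 𝕜, A.IsBanachIdeal →
        (FinRankDense A → ∀ lam : ℝ, 1 ≤ lam → CondP A lam X) ∧
          ∀ lam : ℝ, ¬ BAPFor A lam X := by
  refine ⟨approx_isBanachIdeal 𝕜, approx_dense 𝕜, ⟨X.{u} 𝕜⟩, fun A hA =>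
    ⟨fun hd lam hlam => condP_of_dense A hA hd lam hlam _, ?_⟩⟩
  intro lam hB
  have h0 : A.Mem (0 : Op (⟨X.{u} 𝕜⟩ : Ban.{u} 𝕜) ⟨X.{u} 𝕜⟩) := by
    refine (hA.1 _ _).1 _ ⟨⊥, inferInstance, fun x => ?_⟩
    exact Submodule.zero_mem _
  obtain ⟨ι, _, hdir, hne, S, hfin, hunif, _⟩ := hB ⟨X.{u} 𝕜⟩ 0 h0
  have h5 := hunif (Kc.{u} 𝕜) (isCompact_Kc.{u} 𝕜)
  rw [Metric.tendstoUniformlyOn_iff] at h5
  obtain ⟨i, hi⟩ := (h5 (1 / 4) (by norm_num)).exists
  obtain ⟨x, hx, hx2⟩ := noAP.{u} 𝕜 (S i) (hfin i).range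
  have h8 := hi x hx
  rw [id, dist_comm, dist_eq_norm] at h8
  exact absurd h8 (not_lt.2 hx2.le)

end Pool.Agent.Results.MP_2b2a50_an.DenseIdeals
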